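import Pool.Agent.Helper17.DF.Geo

set_option autoImplicit false

/-! Module DG-6a (MP_16e137_co): the mirror image of a cubic map. -/

namespace Pool.Agent.Helper17.CT
open Function

section
variable {D : Type} [Finite D] {M : CMap D}

omit [Finite D] in
/-- `f' = s ∘ s ∘ a`, so `f (a (f' x)) = s (f' x) = a x`. -/
theorem mirror_f (x : D) : M.f (M.a (M.mirror.f x)) = M.a x := by
  show M.s (M.a (M.a (M.s (M.s (M.a x))))) = M.a x
  rw [M.a2, M.s3]

omit [Finite D] in
lemma mir_it25 (n : ℕ) (x : D) : (M.f)^[n] (M.a ((M.mirror.f)^[n] x)) = M.a x := by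
  induction n generalizing x with
  | zero => rfl
  | succ n ih =>
    rw [iterate_succ_apply', iterate_succ_apply, ih, mirror_f]

omit [Finite D] in
lemma mir_inj25 (n : ℕ) : Injective ((M.f)^[n]) := by
  apply Injective.iterate
  intro x y h
  have h' : M.s (M.a x) = M.s (M.a y) := h
  have h2 : M.a x = M.a y := by
    rw [← M.s3 (M.a x), ← M.s3 (M.a y), h']
  rw [← M.a2 x, ← M.a2 y, h2]

omit [Finite D] in
theorem mirror_iter (x : D) (n : ℕ) (hn : n ≤ minimalPeriod M.f (M.a x)) :
    (M.mirror.f)^[n] x = M.a ((M.f)^[minimalPeriod M.f (M.a x) - n] (M.a x)) := by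
  have h1 : (M.f)^[n] ((M.f)^[minimalPeriod M.f (M.a x) - n] (M.a x)) = M.a x := by
    rw [← iterate_add_apply, Nat.add_sub_cancel' hn, iterate_minimalPeriod]
  have h2 := mir_inj25 n ((mir_it25 (M := M) n x).trans h1.symm)
  rw [← h2, M.a2]

theorem mirror_face {x y : D} : M.mirror.Face x y ↔ M.Face (M.a x) (M.a y) := by
  constructor
  · rintro ⟨n, hn⟩
    refine face_symm M ?_
    exact ⟨n, by rw [← hn, mir_it25]⟩
  · rintro ⟨n, hn⟩
    refine face_symm M.mirror ?_
    refine ⟨n, ?_⟩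
    have h1 := mir_inj25 n ((mir_it25 (M := M) n y).trans hn.symm)
    rw [← M.a2 ((M.mirror.f)^[n] y), h1, M.a2]

omit [Finite D] in
theorem mirror_period (x : D) : minimalPeriod M.mirror.f x = minimalPeriod M.f (M.a x) := by
  rw [minimalPeriod_eq_minimalPeriod_iff]
  intro n
  constructor
  · intro h
    have h1 : (M.mirror.f)^[n] x = x := h
    have h2 := mir_it25 (M := M) n x
    rw [h1] at h2
    exact h2
  · intro h
    have h1 : (M.f)^[n] (M.a x) = M.a x := h
    have h2 := mir_inj25 n ((mir_it25 (M := M) n x).trans h1.symm)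
    show (M.mirror.f)^[n] x = x
    rw [← M.a2 ((M.mirror.f)^[n] x), h2, M.a2]

omit [Finite D] in
/-- `φ' d = φ (a d)` -/
theorem mirror_planar (hp : M.Planar) : M.mirror.Planar := by
  intro Z hZ
  obtain ⟨φ, h1, h2⟩ := hp Z ⟨hZ.1, fun d => by
    have h := hZ.2 d
    have h' : (Z d ^^ Z (M.s (M.s d)) ^^ Z (M.s (M.s (M.s (M.s d))))) = false := h
    rw [M.s3] at h'
    cases h3 : Z d <;> cases h4 : Z (M.s d) <;> cases h5 : Z (M.s (M.s d)) <;> simp_all⟩
  refine ⟨fun d => φ (M.a d), fun d => ?_, fun d => ?_⟩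
  · show φ (M.a (M.mirror.f d)) = φ (M.a d)
    rw [← h1, mirror_f]
  · show Z d = (φ (M.a d) ^^ φ (M.a (M.a d)))
    rw [← h2]
    exact (hZ.1 d).symm

omit [Finite D] in
lemma mirror_mirror25 : M.mirror.mirror = M := by
  have h : M.mirror.mirror.s = M.s := by
    funext d
    show M.s (M.s (M.s (M.s d))) = M.s d
    rw [M.s3]
  have h' : M.mirror.mirror.a = M.a := rfl
  cases hM : M
  rw [hM] at h h'
  simp only [CMap.mirror] at h h' ⊢
  simp only [CMap.mk.injEq]
  exact ⟨h, trivial⟩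

omit [Finite D] in
lemma mirror_ham25 {U : D → Bool} (h : M.IsHam U) : M.mirror.IsHam U := by
  refine ⟨h.acl, fun d => ?_, fun x y hx hy => ?_⟩
  · have h1 := h.one d
    show One (U d) (U (M.s (M.s d))) (U (M.s (M.s (M.s (M.s d)))))
    rw [M.s3]
    rcases h1 with ⟨a, b, c⟩ | ⟨a, b, c⟩ | ⟨a, b, c⟩
    · exact Or.inl ⟨a, c, b⟩
    · exact Or.inr (Or.inr ⟨a, c, b⟩)
    · exact Or.inr (Or.inl ⟨a, c, b⟩)
  · have key : ∀ u v, Step M.s M.a U u v → Step M.mirror.s M.mirror.a U u v := ?_
    · have hc := h.conn x y hx hy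
      show Relation.ReflTransGen (Step M.mirror.s M.mirror.a U) x y
      have hc' : Relation.ReflTransGen (Step M.s M.a U) x y := hc
      induction hc' with
      | refl => exact Relation.ReflTransGen.refl
      | tail _ hs ih =>
        exact Relation.ReflTransGen.tail (ih hs.1 (h.conn _ _ hx hs.1)) (key _ _ hs)
    rintro u v ⟨h1, h2, h3⟩
    refine ⟨h1, h2, ?_⟩
    rcases h3 with h3 | h3 | h3
    · exact Or.inl h3
    · right; right
      show v = M.s (M.s (M.s (M.s u)))
      rw [M.s3, h3]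
    · right; left
      exact h3

omit [Finite D] in
theorem mirror_tri (γ : D → Fin 3) (hT : M.Tri γ) : M.mirror.Tri γ := by
  refine ⟨hT.acl, fun d => ?_, fun i => mirror_ham25 (hT.ham i), fun V hV => ?_⟩
  · have h := hT.prop (M.s (M.s d))
    rw [M.s3] at h
    exact fun h' => h h'.symm
  · have h := mirror_ham25 hV
    rw [mirror_mirror25] at h
    exact hT.all V h

omit [Finite D] in
theorem mirror_cyc4 (h4 : M.Cyc4) : M.mirror.Cyc4 := by
  intro X hX hb
  have hX' : M.VSet X := by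
    intro d
    have h1 : X (M.s (M.s (M.s (M.s d)))) = X (M.s (M.s d)) := hX (M.s (M.s d))
    have h2 : X (M.s (M.s d)) = X d := hX d
    rw [M.s3] at h1
    rw [h1, h2]
  rcases h4 X hX' hb with ⟨v, hv⟩ | ⟨v, hv⟩
  · refine Or.inl ⟨v, fun d hd => ?_⟩
    rcases hv d hd with h | h | h
    · exact Or.inl h
    · right; right
      show d = M.s (M.s (M.s (M.s v)))
      rw [M.s3, h]
    · exact Or.inr (Or.inl h)
  · refine Or.inr ⟨v, fun d hd => ?_⟩
    rcases hv d hd with h | h | h
    · exact Or.inl h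
    · right; right
      show d = M.s (M.s (M.s (M.s v)))
      rw [M.s3, h]
    · exact Or.inr (Or.inl h)

end

end Pool.Agent.Helper17.CT
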